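import Pool.Agent.H820R3.BSDN.G5

/-!
# The averaged original form of the conjecture of Birch and Swinnerton-Dyer over number fields

Let `E : y² = x³ + a x + b` be an elliptic curve over a number field `K` with integral coefficients,
`F` the entire continuation of its (incomplete) `L`-function, of polynomial growth in `Re s ≥ 1`, `EP(x)` the
product of `#E(k_v) / q_v` over the places `v` with `q_v ≤ x` not dividing twice the discriminant, and
`LA(x)` the logarithmic average of `log EP(n) - κ log log n`.  Then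

* `LA` is bounded above if and only if the Riemann hypothesis holds for `F` and `ord_{s=1} F ≤ κ`;
* `LA` is bounded if and only if the Riemann hypothesis holds for `F` and `ord_{s=1} F = κ`;
* if `F` has no real zero greater than `1`: `LA` is bounded below if and only if the Riemann
  hypothesis holds for `F` and `ord_{s=1} F ≥ κ`.

The implications from left to right are in helper438's `MP_cd906c_nt.NumberFieldProducts`; the
converse implications are new.  Their proof uses the pieces of the project H814-BSD (helper814 and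
the helpers 41, 99, 337, 471, 759, 790, 853 and others): a kernel for logarithmic averages, the
Poisson bound for `∫ |log |F|| / (1 + t²)`, Borel-Carathéodory.
-/

set_option autoImplicit false

open Filter NumberField

namespace Pool.Agent.Results.MP_32c55d_nt.AveragedProducts

open Pool.Agent.H438R3.BSD.NF

/-- See the introduction. -/
theorem result (K : Type) [Field K] [NumberField K] (a b : 𝓞 K)
    (_hab : 4 * a ^ 3 + 27 * b ^ 2 ≠ 0) (F : ℂ → ℂ) (hF : IsL a b F)
    (hgr : ∃ C N : ℝ, ∀ s : ℂ, 1 ≤ s.re → ‖F s‖ ≤ C * (1 + ‖s‖) ^ N) :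
    ∃ m : ℕ, analyticOrderAt F 1 = m ∧ ∀ κ : ℝ,
      ((∃ C : ℝ, ∀ n : ℕ, LA a b κ n ≤ C) ↔
        (∀ s : ℂ, 1 < s.re → F s ≠ 0) ∧ (m : ℝ) ≤ κ) ∧
      ((∃ C : ℝ, ∀ n : ℕ, |LA a b κ n| ≤ C) ↔
        (∀ s : ℂ, 1 < s.re → F s ≠ 0) ∧ κ = m) ∧
      ((∀ σ : ℝ, 1 < σ → F σ ≠ 0) → ((∃ C : ℝ, ∀ n : ℕ, C ≤ LA a b κ n) ↔
        (∀ s : ℂ, 1 < s.re → F s ≠ 0) ∧ κ ≤ m)) :=
  Pool.Agent.H820R3.BSDN.iff_NF a b hF hgr

end Pool.Agent.Results.MP_32c55d_nt.AveragedProducts
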